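import Pool.Agent.W635.FanReap
import Pool.Agent.Helper292.ForceCH

/-!
The countable sequential fan in spaces of continuous functions on Menger spaces.
-/

set_option autoImplicit false

namespace Pool.Agent.Results.MP_b8a914_gt.FanMengerReaping

open Pool.Agent.W635.Fan

/-- (1) Some Tychonoff Menger space `X` has the sequential fan inside `C_p(X)` if and only if some
Menger set `Z` of subsets of `ℕ × ℕ` with finite columns is such that each region below the graph
of a function is covered by finitely many members of `Z`. (2) It is also equivalent that some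
Menger set of reals has the fan inside `C_p`. (3) If the dominating number is at most the reaping
number then some Menger set of reals has the fan inside `C_p`. (4) The continuum hypothesis gives
such a set of reals in which, moreover, for every sequence of open covers there are finite
subfamilies such that each finite subset is contained in the union of one of them. (5) There is a
nonempty forcing notion all of whose conditions force that `ω₁` is preserved and that the continuum
hypothesis holds. (6) The fan does not embed in `C_p(X)` if `X` has the stronger Hurewicz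
property. -/
theorem result :
    ((∃ (X : Type) (_ : TopologicalSpace X), T35Space X ∧ Menger X ∧ FanEmbeds X) ↔
      ∃ Z : Set (ℕ × ℕ → Bool), Menger Z ∧ Covering Z) ∧
    ((∃ (X : Type) (_ : TopologicalSpace X), T35Space X ∧ Menger X ∧ FanEmbeds X) ↔
      ∃ X : Set ℝ, Menger X ∧ FanEmbeds X) ∧
    (dNum ≤ rNum → ∃ X : Set ℝ, T35Space X ∧ Menger X ∧ FanEmbeds X) ∧
    (Cardinal.aleph 1 = Cardinal.continuum.{0} →
      ∃ X : Set ℝ, T35Space X ∧ Menger X ∧ FinMenger X ∧ FanEmbeds X) ∧
    (∃ (P : Type) (_ : Preorder P), Nonempty P ∧ ∀ p : P,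
      p ∈ Pool.Agent.Helper292.ForceCH.OmegaOnePreserved P ∧
      p ∈ Pool.Agent.Helper292.ForceCH.CHHolds P) ∧
    (∀ (X : Type) [TopologicalSpace X], StrongHurewicz X → ¬ FanEmbeds X) := by
  have h12 : (∃ (X : Type) (_ : TopologicalSpace X), T35Space X ∧ Menger X ∧ FanEmbeds X) →
      ∃ Z : Set (ℕ × ℕ → Bool), Menger Z ∧ Covering Z := by
    rintro ⟨X, i, _, hM, hE⟩
    obtain ⟨Z, h1, h2, _⟩ := covering_of_fan hM hE
    exact ⟨Z, h1, h2⟩
  have h23 : (∃ Z : Set (ℕ × ℕ → Bool), Menger Z ∧ Covering Z) →
      ∃ X : Set ℝ, Menger X ∧ FanEmbeds X := by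
    rintro ⟨Z, h1, h2⟩
    exact exists_real_of_covering Z h1 h2
  have h31 : (∃ X : Set ℝ, Menger X ∧ FanEmbeds X) →
      ∃ (X : Type) (_ : TopologicalSpace X), T35Space X ∧ Menger X ∧ FanEmbeds X := by
    rintro ⟨X, h1, h2⟩
    exact ⟨X, inferInstance, inferInstance, h1, h2⟩
  refine ⟨⟨h12, fun h => h31 (h23 h)⟩, ⟨fun h => h23 (h12 h), h31⟩, fun hle => ?_,
    fun hCH => ?_, ?_, fun X _ h => not_fan_of_strong h⟩
  · obtain ⟨X, h1, h2⟩ := exists_real_of_le hle
    exact ⟨X, inferInstance, h1, h2⟩
  · obtain ⟨X, h1, h2⟩ := exists_example hCH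
    exact ⟨X, inferInstance, menger_of_finMenger h1, h1, h2⟩
  · obtain ⟨P, i, h1, h2⟩ := Pool.Agent.Helper292.ForceCH.exists_forcing
    exact ⟨P, i, h1, fun p => ⟨(h2 p).1, (h2 p).2.2⟩⟩

end Pool.Agent.Results.MP_b8a914_gt.FanMengerReaping
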